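import Pool.Agent.helper35.DR.SpecP
import Pool.Agent.helper35.DR.SpecT

/-! PCO: complement pairs (compare helper53/DR/PFU.lean). -/

set_option autoImplicit false

namespace Pool.Agent.DR

open Pool.Agent.helper58.DC Pool.Agent.DI

theorem PCO_prod (f : TT → ℂ) : ∏ t, f t = f t₁ * f t₀ := Fintype.prod_bool f

theorem PCO_t : t₁ ≠ t₀ := Bool.noConfusion

theorem PCO_two₀ {α : Type} (a b : α) : two a b t₀ = a := if_pos rfl

theorem PCO_two₁ {α : Type} (a b : α) : two a b t₁ = b := if_neg PCO_t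

theorem PCO_cases (t : TT) : t = t₀ ∨ t = t₁ := by
  rcases (t : Bool) with _ | _
  · exact Or.inl rfl
  · exact Or.inr rfl

theorem PCO_all {P : TT → Prop} (h0 : P t₀) (h1 : P t₁) (t : TT) : P t := by
  rcases PCO_cases t with h | h
  · rw [h]; exact h0
  · rw [h]; exact h1

theorem PCO (hTIS : TIS_stmt) (hRST : RST_stmt) (hPMP : PMP_stmt) (hPDL : PDL_stmt)
    (hB13 : Pool.Agent.DI.B13_stmt) (hIO : IO_stmt) (hIF : IF_stmt) (hSK : SK_stmt) :
    PCO_stmt := by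
  classical
  intro G E A _ _ _ _ _ _ X p hp M hOp χ hχ x y hx hy N hN D
  obtain ⟨hradx, hirrx, -⟩ := hx
  obtain ⟨hrady, hirry, -⟩ := hy
  obtain ⟨Px, hPx, -⟩ := hradx.radical
  obtain ⟨Py, hPy, -⟩ := hrady.radical
  obtain ⟨-, -, h3x⟩ := hRST G E A X x.1 hradx.chain ⟨Px, hPx⟩
  obtain ⟨-, -, h3y⟩ := hRST G E A X y.1 hrady.chain ⟨Py, hPy⟩
  obtain ⟨-, hstx, -⟩ := h3x x.2 hirrx
  obtain ⟨-, hsty, -⟩ := h3y y.2 hirry
  have hdirr : dl y.2 ∈ IrrOn (nrm y.1) := ((hPDL G y.2 y.2).2.1 (nrm y.1)).mpr hirry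
  have hstdl : X.stab y.1 (dl y.2) = X.stab y.1 y.2 := (hPDL G y.2 y.2).2.2.2.2.2 E A X y.1
  set SS : TT → Subgroup E := two (X.stab x.1 x.2) (X.stab y.1 y.2) with hSS
  set ψ' : TT → G → ℂ := two x.2 (dl y.2) with hψ'
  have hS0 : SS t₀ = X.stab x.1 x.2 := PCO_two₀ _ _
  have hS1 : SS t₁ = X.stab y.1 y.2 := PCO_two₁ _ _
  have hψ0 : ψ' t₀ = x.2 := PCO_two₀ _ _
  have hψ1 : ψ' t₁ = dl y.2 := PCO_two₁ _ _
  obtain ⟨hmap, hcardk, hfin⟩ := hPMP G E A X SS
  rw [hS0, hS1] at hmap hcardk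
  -- the kernel
  let HH : TT → Subgroup G := two (nrm x.1) (nrm y.1)
  have hHH0 : HH t₀ = nrm x.1 := PCO_two₀ _ _
  have hHH1 : HH t₁ = nrm y.1 := PCO_two₁ _ _
  have hSH : ∀ t, SS t ⊓ X.proj.ker = (HH t).map X.inc :=
    PCO_all (by rw [hS0, hHH0, hstx]) (by rw [hS1, hHH1, hsty])
  have hker : prS X SS ⊓ (X2 X).proj.ker = (Subgroup.pi Set.univ HH).map (X2 X).inc := by
    ext e
    constructor
    · rintro ⟨h1, h2⟩
      obtain ⟨g, rfl⟩ := ((X2 X).exact e).1 h2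
      refine ⟨g, ?_, rfl⟩
      intro t _
      have h3 : X.inc (g t) ∈ SS t ⊓ X.proj.ker := by
        refine ⟨h1 t, ?_⟩
        show X.proj (X.inc (g t)) = 1
        exact (X.exact _).2 ⟨_, rfl⟩
      rw [hSH t] at h3
      obtain ⟨g', hg', hgg⟩ := h3
      rw [← X.inc_injective hgg]
      exact hg'
    · rintro ⟨g, hg, rfl⟩
      refine ⟨?_, ((X2 X).exact _).2 ⟨g, rfl⟩⟩
      intro t
      have h3 : X.inc (g t) ∈ SS t ⊓ X.proj.ker := by
        rw [hSH t]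
        exact ⟨g t, hg t (Set.mem_univ t), rfl⟩
      exact h3.1
  have hψirr : tens ψ' ∈ IrrOn (Subgroup.pi Set.univ HH) :=
    (hIO G TT HH).1 ψ' (PCO_all (by rw [hψ0, hHH0]; exact hirrx) (by rw [hψ1, hHH1]; exact hdirr))
  have hB2 := hB13 (TT → G) (KE X (diag A)) p (X2 X).inc (X2 X).inc_injective (Subgroup.pi Set.univ HH)
  have hψE : ext0 (X2 X).inc (tens ψ') ∈ IrrOn (prS X SS ⊓ (X2 X).proj.ker) := by
    rw [hker]
    exact (hB2.2.1 _).mp hψirr
  -- invariance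
  have hinv : ∀ s ∈ prS X SS, funMap (MulAut.conj s) (ext0 (X2 X).inc (tens ψ')) =
      ext0 (X2 X).inc (tens ψ') := by
    intro s hs
    rw [hB2.2.2.2.2.2 (tens ψ') ((X2 X).act s) s (fun k => (X2 X).act_spec s k)]
    congr 1
    have h5 := (hSK G E A A TT X (diag A) M).1 s ψ'
    refine h5.trans ?_
    congr 1
    funext t
    have h6 : ∀ t, funMap (X.act (s.f t)) (ψ' t) = ψ' t := by
      apply PCO_all
      · have h7 : s.f t₀ ∈ SS t₀ := hs t₀
        rw [hS0] at h7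
        rw [hψ0]
        exact h7.2
      · have h7 : s.f t₁ ∈ SS t₁ := hs t₁
        rw [hS1, ← hstdl] at h7
        rw [hψ1]
        exact h7.2
    exact h6 t
  -- the subgroup over N
  have hK : prS X SS ⊓ N.comap (X2 X).proj = prS X SS ⊓ (X2 X).proj.ker := by
    apply le_antisymm
    · rintro e ⟨h1, h2⟩
      refine ⟨h1, ?_⟩
      have h3 : (X2 X).proj e ∈ (prS X SS).map (X2 X).proj := ⟨e, h1, rfl⟩
      rw [hmap] at h3
      have h4 : (X2 X).proj e ∈ (Vx X x ⊓ Vx X y) ⊓ N := ⟨h3, h2⟩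
      rw [hN] at h4
      exact h4
    · rintro e ⟨h1, h2⟩
      refine ⟨h1, ?_⟩
      have h3 : (X2 X).proj e = 1 := h2
      show (X2 X).proj e ∈ N
      rw [h3]
      exact N.one_mem
  -- orders and degrees
  have hcx : Nat.card (X.stab x.1 x.2 ⊓ X.proj.ker : Subgroup E) = Nat.card (nrm x.1) := by
    rw [hstx]
    exact (Nat.card_congr ((nrm x.1).equivMapOfInjective X.inc X.inc_injective).toEquiv).symm
  have hcy : Nat.card (X.stab y.1 y.2 ⊓ X.proj.ker : Subgroup E) = Nat.card (nrm y.1) := by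
    rw [hsty]
    exact (Nat.card_congr ((nrm y.1).equivMapOfInjective X.inc X.inc_injective).toEquiv).symm
  rw [hcx, hcy] at hcardk
  obtain ⟨nx, hnx, hnx1⟩ := ((hIF G (nrm x.1)).2 x.2 hirrx).1
  obtain ⟨ny, hny, hny1⟩ := ((hIF G (nrm y.1)).2 y.2 hirry).1
  have hdx : dfc p x = (padicValNat p (Nat.card (nrm x.1)) : ℤ) - padicValNat p nx := by
    unfold dfc
    rw [hnx1, Complex.natCast_re, Nat.floor_natCast]
  have hdy : dfc p y = (padicValNat p (Nat.card (nrm y.1)) : ℤ) - padicValNat p ny := by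
    unfold dfc
    rw [hny1, Complex.natCast_re, Nat.floor_natCast]
  have hval : ext0 (X2 X).inc (tens ψ') 1 = ((nx * ny : ℕ) : ℂ) := by
    have h1 := (hB2.1 (tens ψ')).1 1
    rw [map_one] at h1
    rw [h1]
    unfold tens
    rw [PCO_prod, hψ0, hψ1]
    show y.2 (1 : G)⁻¹ * x.2 1 = _
    rw [inv_one, hnx1, hny1]
    push_cast
    ring
  have hDef : Defect p (prS X SS ⊓ (X2 X).proj.ker) (ext0 (X2 X).inc (tens ψ')) (dfc p x + dfc p y) := by
    refine ⟨nx * ny, hval, ?_⟩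
    rw [hcardk, hdx, hdy, padicValNat.mul (Nat.card_pos).ne' (Nat.card_pos).ne',
      padicValNat.mul hnx.ne' hny.ne']
    push_cast
    ring
  have hDef2 : ∀ D, Defect p (prS X SS ⊓ (X2 X).proj.ker) (ext0 (X2 X).inc (tens ψ')) D →
      dfc p x + dfc p y = D := by
    rintro D ⟨n, hn, hnD⟩
    obtain ⟨m, hm, hmD⟩ := hDef
    have h8 : n = m := by
      have : (n : ℂ) = m := hn.symm.trans hm
      exact_mod_cast this
    rw [hnD, hmD, h8]
  have hfin' : Finite (KE X (diag A)) := hfin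
  have hT := hTIS (KE X (diag A)) p (prS X SS ⊓ (X2 X).proj.ker) (prS X SS)
    (ext0 (X2 X).inc (tens ψ')) hψE hinv D
  unfold relP
  rw [← hSS, ← hψ', hK, hcardk]
  by_cases hD : dfc p x + dfc p y = D
  · rw [if_pos hD, hT.1 (hD ▸ hDef)]
    push_cast
    ring
  · rw [if_neg hD, hT.2 (fun h => hD (hDef2 D h))]
    push_cast
    ring

end Pool.Agent.DR
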